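import Mathlib

/-! # Unique games with random shifts have small value -/

open scoped Classical
open Finset

namespace Pool.Agent.NH48.SA

theorem card_fix {E T : Type} [Fintype E] [Fintype T] (S : Finset E) (f : E → T) :
    (Fintype.piFinset (fun e => if e ∈ S then ({f e} : Finset T) else univ)).card =
      Fintype.card T ^ (Fintype.card E - S.card) := by
  rw [Fintype.card_piFinset]
  have h : ∀ e, (if e ∈ S then ({f e} : Finset T) else univ).card =
      if e ∈ S then 1 else Fintype.card T := by
    intro e
    split_ifs
    · simp
    · simp
  simp only [h]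
  rw [Finset.prod_ite, Finset.prod_const_one, one_mul, Finset.prod_const]
  congr 1
  rw [Finset.filter_not, Finset.filter_mem_eq_inter, Finset.univ_inter,
    Finset.card_sdiff_of_subset (Finset.subset_univ _), Finset.card_univ]

/-- random shifts give small value, by a union bound -/
theorem exists_shift {V W E T : Type} [Fintype V] [Fintype W] [Fintype E] [Fintype T]
    [AddCommGroup T] (v : E → V) (w : E → W) (K : ℕ)
    (h : Fintype.card T ^ (Fintype.card V + Fintype.card W) * 2 ^ Fintype.card E <
      Fintype.card T ^ K) :
    ∃ α : E → T, ∀ (s : V → T) (t : W → T),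
      (univ.filter fun e => t (w e) + α e = s (v e)).card < K := by
  by_contra hcon
  push Not at hcon
  have hT : 0 < Fintype.card T := Fintype.card_pos
  set f : (V → T) → (W → T) → E → T := fun s t e => s (v e) - t (w e) with hf
  set I : Finset ((V → T) × (W → T) × Finset E) := univ ×ˢ (univ ×ˢ powersetCard K univ) with hI
  set F : ((V → T) × (W → T) × Finset E) → Finset (E → T) := fun q =>
    Fintype.piFinset (fun e => if e ∈ q.2.2 then ({f q.1 q.2.1 e} : Finset T) else univ)
    with hF
  have hcov : (univ : Finset (E → T)) ⊆ I.biUnion F := by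
    intro α _
    obtain ⟨s, t, hst⟩ := hcon α
    obtain ⟨S, hS, hSc⟩ := Finset.exists_subset_card_eq hst
    rw [Finset.mem_biUnion]
    refine ⟨(s, t, S), ?_, ?_⟩
    · rw [hI]
      simp only [Finset.mem_product, Finset.mem_univ, true_and, Finset.mem_powersetCard]
      exact ⟨Finset.subset_univ _, hSc⟩
    · rw [hF]
      simp only [Fintype.mem_piFinset]
      intro e
      split_ifs with he
      · have h1 := hS he
        rw [Finset.mem_filter] at h1
        rw [Finset.mem_singleton, hf]
        exact eq_sub_of_add_eq' h1.2
      · exact Finset.mem_univ _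
  have hFc : ∀ q ∈ I, (F q).card ≤ Fintype.card T ^ (Fintype.card E - K) := by
    intro q hq
    rw [hI] at hq
    simp only [Finset.mem_product, Finset.mem_univ, true_and, Finset.mem_powersetCard] at hq
    have h0 := card_fix q.2.2 (f q.1 q.2.1)
    rw [hq.2] at h0
    rw [← h0, hF]
  have h1 : (univ : Finset (E → T)).card ≤ I.card * Fintype.card T ^ (Fintype.card E - K) :=
    (Finset.card_le_card hcov).trans (Finset.card_biUnion_le_card_mul _ _ _ hFc)
  have h2 : (univ : Finset (E → T)).card = Fintype.card T ^ Fintype.card E := by
    rw [Finset.card_univ, Fintype.card_fun]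
  have h3 : I.card ≤ Fintype.card T ^ (Fintype.card V + Fintype.card W) * 2 ^ Fintype.card E := by
    rw [hI, Finset.card_product, Finset.card_product, Finset.card_univ, Finset.card_univ,
      Fintype.card_fun, Fintype.card_fun]
    have h4 : (powersetCard K (univ : Finset E)).card ≤ 2 ^ Fintype.card E := by
      refine (Finset.card_le_card (Finset.subset_univ _)).trans (le_of_eq ?_)
      rw [Finset.card_univ, Fintype.card_finset]
    calc Fintype.card T ^ Fintype.card V * (Fintype.card T ^ Fintype.card W *
          (powersetCard K (univ : Finset E)).card)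
        ≤ Fintype.card T ^ Fintype.card V * (Fintype.card T ^ Fintype.card W *
          2 ^ Fintype.card E) := by gcongr
      _ = _ := by rw [← mul_assoc, ← pow_add]
  have hK : K ≤ Fintype.card E := by
    obtain ⟨s, t, hst⟩ := hcon fun _ => 0
    exact hst.trans (Finset.card_le_univ _)
  have hpos : 0 < Fintype.card T ^ (Fintype.card E - K) := Nat.pow_pos hT
  have h5 : Fintype.card T ^ Fintype.card E < Fintype.card T ^ Fintype.card E := by
    calc Fintype.card T ^ Fintype.card E ≤ I.card * Fintype.card T ^ (Fintype.card E - K) := by
          rw [← h2]; exact h1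
      _ ≤ (Fintype.card T ^ (Fintype.card V + Fintype.card W) * 2 ^ Fintype.card E) *
          Fintype.card T ^ (Fintype.card E - K) := Nat.mul_le_mul_right _ h3
      _ < Fintype.card T ^ K * Fintype.card T ^ (Fintype.card E - K) :=
          Nat.mul_lt_mul_of_pos_right h hpos
      _ = Fintype.card T ^ Fintype.card E := by rw [← pow_add]; congr 1; omega
  exact lt_irrefl _ h5

end Pool.Agent.NH48.SA
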